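import Pool.Agent.H65.PK.Defs
import Pool.Agent.H18.TD.Targets

/-!
Targets of the board pk_modules (MP_58ae59_nt): product kernel in transcendence degree one.
-/

set_option autoImplicit false

open Polynomial Module Filter Topology

namespace Pool.Agent.H65.PK

open Pool.Agent.H18.TD (AO Rep Un vl aux th der tc om gam)
open Pool.Agent.H72.HR (pt dv box chn Grp Lie Std kap TT T_SLC T_CLB T_PIG T_CAL)

/-! ### Part G: Gelfond's criterion with separate degree and height -/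

/-- existence of the function `g` -/
def T_GFN : Prop := ∀ K : ℕ, 1 ≤ K → ∃ g : ℕ → ℕ, GF K g

/-- growth -/
def T_GRO : Prop := ∀ (K : ℕ) (g : ℕ → ℕ), 1 ≤ K → GF K g → ∀ (C : ℝ) (E : ℕ), ∃ h0 : ℕ,
  3 ≤ h0 ∧ ∀ h : ℕ, h0 ≤ h → C * ((g h : ℝ) ^ E * (1 + Real.log h) ^ E) ≤ h

/-- Mahler measure of integer polynomials -/
def T_MZB : Prop :=
  (∀ P Q : ℤ[X], P ≠ 0 → Q ≠ 0 → mz (P * Q) = mz P + mz Q) ∧
  (∀ Q : ℤ[X], Q ≠ 0 → 0 ≤ mz Q) ∧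
  (∀ (Q : ℤ[X]) (i : ℕ), Q ≠ 0 → |(Q.coeff i : ℝ)| ≤ Real.exp (mz Q + Q.natDegree)) ∧
  (∀ (Q : ℤ[X]) (B : ℝ), Q ≠ 0 → (∀ i, |(Q.coeff i : ℝ)| ≤ Real.exp B) →
    mz Q ≤ B + 1 + Q.natDegree)

/-- a good irreducible factor, weights `a` for the degree and `b` for the Mahler measure -/
def T_GFB : Prop := ∀ (θ : ℂ) (R : ℤ[X]) (A B a b : ℝ), aeval θ R ≠ 0 → 0 < a → 0 < b → 0 < A →
  0 < B → a * R.natDegree + b * mz R ≤ B → ‖aeval θ R‖ ≤ Real.exp (-A) →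
  ∃ Q : ℤ[X], Irreducible Q ∧ Q ∣ R ∧ 1 ≤ Q.natDegree ∧ Q.natDegree ≤ R.natDegree ∧
    mz Q ≤ mz R ∧ ‖aeval θ Q‖ ≤ Real.exp (-(A / B * (a * Q.natDegree + b * mz Q)))

/-- two coprime polynomials are not both small -/
def T_GRZ : Prop := ∀ θ : ℂ, ∃ C : ℝ, 1 ≤ C ∧ ∀ (P Q : ℤ[X]) (ε : ℝ), Irreducible P →
  Irreducible Q → ¬ Associated P Q → 1 ≤ P.natDegree → 1 ≤ Q.natDegree →
  ‖aeval θ P‖ ≤ ε → ‖aeval θ Q‖ ≤ ε →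
  1 ≤ ε * Real.exp (C * (P.natDegree * (Q.natDegree + mz Q) + Q.natDegree * (P.natDegree + mz P)))

/-- Gelfond's criterion with separate degree and height, and a logarithmic saving -/
def T_GEM : Prop := ∀ (K κ : ℕ) (g : ℕ → ℕ), 1 ≤ K → GF K g → ∀ (θ : ℂ) (C : ℝ) (h0 : ℕ), 1 ≤ C →
  ¬ ∀ h : ℕ, h0 ≤ h → ∃ R : ℤ[X], aeval θ R ≠ 0 ∧
    (R.natDegree : ℝ) ≤ C * dl g κ h ∧
    (∀ i, |(R.coeff i : ℝ)| ≤ Real.exp (C * (dl g κ h * Real.log h))) ∧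
    ‖aeval θ R‖ ≤ Real.exp (-(g h * (dl g κ h : ℝ) ^ 2 * Real.log h / C))

/-! ### Part A: arithmetic of the values -/

/-- powers of algebraic numbers: all degree goes into the height -/
def T_CST : Prop := ∀ (m : ℕ) (y : Fin m → ℂ), (∀ i, IsAlgebraic ℚ (y i)) →
  ∃ (N : ℕ) (ω : Fin N → ℂ) (D : ℕ) (E : ℝ), (∀ i, IsAlgebraic ℚ (ω i)) ∧ 1 ≤ D ∧ 1 ≤ E ∧
    ∀ (δ : ℕ) (e : Fin m → ℕ), ∑ i, e i ≤ δ → Rep ω 1 (E ^ δ) ((D : ℂ) ^ δ * ∏ i, y i ^ e i)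

/-- the values are integer polynomials in fixed numbers -/
def T_ARK : Prop := ∀ (t : ℂ) (r l c n : ℕ) (X : Matrix (Fin l) (Fin r) ℂ)
  (Y : Matrix (Fin r) (Fin c) ℂ) (w : Fin (n + 1) → ℂ)
  (A : Fin (n + 1) → Matrix (Fin l) (Fin c) ℤ) (K0 : Fin (n + 1) → Bool) (ω : Fin l → ℕ)
  (υ : Fin c → ℕ) (κ K : ℕ) (g : ℕ → ℕ), 1 ≤ K → GF K g →
  (∀ p j, (X * Y) p j = ∑ k, w k * (A k p j : ℂ)) →
  (∀ k, K0 k = true → IsAlgebraic ℚ (Complex.exp (w k))) →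
  (∀ k p j, A k p j ≠ 0 → ω p + υ j ≤ κ + K) →
  (∀ k p j, K0 k = false → A k p j ≠ 0 → ω p + υ j ≤ κ) →
  ∃ (N : ℕ) (om : Fin N → ℂ), (∀ i, IsAlgebraic ℚ (om i)) ∧ ∃ C : ℕ, 1 ≤ C ∧ ∀ h : ℕ, 3 ≤ h →
    ∀ p : Un r l (dl g κ h) (tl g (∑ a, ω a) h) (dl g κ h) → ℤ,
    (∀ u, p u ≠ 0 → ∀ a, ((u.2.1 a : Fin _) : ℕ) < tl g (ω a) h) →
    (∀ u, |(p u : ℝ)| ≤ Real.exp (dl g κ h * Real.log h)) →
    ∀ τ : Fin r → ℕ, (∀ i, τ i ≤ (r + l) * dl g κ h) → ∀ s : Fin c → ℤ,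
      (∀ j, 0 ≤ s j ∧ s j ≤ (r + l) * (tl g (υ j) h : ℤ)) →
      ∃ D : ℕ, 1 ≤ D ∧ (D : ℝ) ≤ Real.exp (C * (dl g κ h * Real.log h)) ∧
        Rep (xk t X Y w K0 om) (C * dl g κ h) (Real.exp (C * (dl g κ h * Real.log h)))
          ((D : ℂ) * vl t X Y p τ s)

/-! ### Part S: analysis -/

/-- values are small if the Taylor coefficients are small, general ratio of the radii -/
def T_SMR : Prop := ∀ (r : ℕ) (Ω : Type) [Fintype Ω] (d : Ω → ℂ) (μ : Ω → Fin r → ℕ)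
  (θ : Ω → Fin r → ℂ) (τ : Fin r → ℕ) (y : Fin r → ℂ) (R ρ ε Y : ℝ) (V : ℕ), 1 ≤ R → 4 ≤ ρ →
  0 ≤ ε → (∀ i, ‖y i‖ ≤ R) →
  (∀ κ : Fin r → ℕ, (∀ i, κ i < V) →
    ‖∑ w, d w * ∏ i, tc (μ w i) (θ w i) (κ i)‖ * (ρ * R) ^ (∑ i, κ i) ≤ ε) →
  (∑ w, ‖d w‖ * ∏ i, ((ρ * R) ^ (μ w i) * Real.exp (ρ * R * ‖θ w i‖))) ≤ Y →
  ‖∑ w, d w * ∏ i, (der (μ w i) (θ w i) (τ i) (y i) * Complex.exp (θ w i * y i))‖ ≤
    (∏ i, ((τ i).factorial : ℝ)) * (2 ^ r * (ε + r * (2 / ρ) ^ V * Y))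

/-- the auxiliary polynomial with small values -/
def T_AUK : Prop := ∀ (t : ℂ) (r l c : ℕ) (X : Matrix (Fin l) (Fin r) ℂ)
  (Y : Matrix (Fin r) (Fin c) ℂ) (ω : Fin l → ℕ) (υ : Fin c → ℕ) (κ K : ℕ) (g : ℕ → ℕ), 1 ≤ K →
  GF K g → 2 * r ≤ l → κ * r + r + 2 ≤ ∑ a, ω a →
  ∃ h0 : ℕ, ∀ h : ℕ, h0 ≤ h →
    ∃ p : Un r l (dl g κ h) (tl g (∑ a, ω a) h) (dl g κ h) → ℤ, p ≠ 0 ∧
    (∀ u, p u ≠ 0 → ∀ a, ((u.2.1 a : Fin _) : ℕ) < tl g (ω a) h) ∧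
    (∀ u, |(p u : ℝ)| ≤ Real.exp (dl g κ h * Real.log h)) ∧
    ∀ τ : Fin r → ℕ, (∀ i, τ i ≤ (r + l) * dl g κ h) → ∀ s : Fin c → ℤ,
      (∀ j, 0 ≤ s j ∧ s j ≤ (r + l) * (tl g (υ j) h : ℤ)) →
      ‖vl t X Y p τ s‖ ≤ Real.exp (-(g h * (dl g κ h : ℝ) ^ 2 * Real.log h))

/-- the auxiliary polynomial is in the box -/
def T_NZK : Prop := ∀ (r l T0 T1 J : ℕ) (S1 : Fin l → ℕ) (t : ℂ) (p : Un r l T0 T1 J → ℤ),
  Transcendental ℚ t → p ≠ 0 → (∀ u, p u ≠ 0 → ∀ a, ((u.2.1 a : Fin _) : ℕ) < S1 a) →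
  aux t p ≠ 0 ∧ aux t p ∈ box (Sum.elim (fun _ => T0) S1)

/-! ### Part Z: zero estimate -/

/-- the zero estimate with different degrees in the multiplicative variables -/
def T_ZEN : Prop := ∀ (ρ τ : Type) [Fintype ρ] [Fintype τ] [DecidableEq ρ] [DecidableEq τ]
  (T0 : ℕ) (T1 : τ → ℕ) (S : ℕ) (W : Submodule ℂ (ρ ⊕ τ → ℂ)) (Γ : Set (ρ ⊕ τ → ℂ))
  (P : MvPolynomial (ρ ⊕ τ) ℂ),
  1 ≤ T0 → (∀ a, 1 ≤ T1 a) → (0 : ρ ⊕ τ → ℂ) ∈ Γ → P ≠ 0 →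
  P ∈ box (Sum.elim (fun _ => T0) T1) →
  (∀ f ∈ chn kap W Γ S P (Fintype.card ρ + Fintype.card τ), MvPolynomial.eval (pt kap 0) f = 0) →
  ∃ (L : Submodule ℂ (ρ ⊕ τ → ℂ)) (Θ : Set (ρ ⊕ τ → ℤ)) (J : Finset τ),
    Std kap (Sum.elim (fun _ => T0) T1) L Θ ∧
    finrank ℂ L ≤ Fintype.card ρ ∧ finrank ℂ (Lie kap ⊥ Θ) ≤ Fintype.card τ ∧
    finrank ℂ L + finrank ℂ (Lie kap ⊥ Θ) < Fintype.card ρ + Fintype.card τ ∧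
    J.card = Fintype.card τ - finrank ℂ (Lie kap ⊥ Θ) ∧
    ∀ F : Finset (ρ ⊕ τ → ℂ), (∀ g ∈ F, g ∈ Γ) →
      (∀ g ∈ F, ∀ g' ∈ F, g - g' ∈ Grp kap L Θ → g = g') →
      F.card * (S + 1) ^ (finrank ℂ W - finrank ℂ (W ⊓ Lie kap L Θ : Submodule ℂ (ρ ⊕ τ → ℂ))) ≤
        (Fintype.card ρ + Fintype.card τ) ^ (Fintype.card ρ + Fintype.card τ) *
        (T0 ^ (Fintype.card ρ - finrank ℂ L) * ∏ j ∈ J, T1 j)

/-- from lists of generating derivations to the chain, different numbers of points -/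
def T_CHW : Prop := ∀ (σ ι ρ : Type) [Fintype σ] [DecidableEq σ] [Fintype ρ] (κ : σ → Bool)
  (o : ι → σ → ℂ) (γ : (ρ → ℤ) → σ → ℂ) (S : ℕ) (M : ρ → ℕ) (P : MvPolynomial σ ℂ),
  (∀ s s', γ (s + s') = γ s + γ s') → ∀ n : ℕ,
  (∀ s : ρ → ℤ, (∀ i, 0 ≤ s i ∧ s i ≤ n * M i) → ∀ l : List ι, l.length ≤ n * S →
    MvPolynomial.eval (pt κ (γ s)) (l.foldr (fun a f => dv κ (o a) f) P) = 0) →
  ∀ f ∈ chn κ (Submodule.span ℂ (Set.range o)) (γ '' {s | ∀ i, 0 ≤ s i ∧ s i ≤ M i}) S P n,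
    MvPolynomial.eval (pt κ 0) f = 0

/-- the zero estimate applied to our points -/
def T_ZEK : Prop := ∀ (r d n : ℕ) (X : Matrix (Fin d) (Fin r) ℂ)
  (Y : Matrix (Fin r) (Fin d) ℂ) (w : Fin (n + 1) → ℂ)
  (A : Fin (n + 1) → Matrix (Fin d) (Fin d) ℤ) (ω υ : Fin d → ℕ) (κ K : ℕ) (g : ℕ → ℕ), 1 ≤ K →
  GF K g → 1 ≤ d → Y.rank = r → (∀ p j, (X * Y) p j = ∑ k, w k * (A k p j : ℂ)) →
  (∀ q : Fin (n + 1) → ℤ, Complex.exp (∑ k, (q k : ℂ) * w k) = 1 → q = 0) →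
  Mnl (fun k => (A k).map (Int.cast : ℤ → ℚ)) → ∑ a, ω a < ∑ j, υ j →
  ∃ h0 : ℕ, ∀ h : ℕ, h0 ≤ h → ∀ P : MvPolynomial (Fin r ⊕ Fin d) ℂ, P ≠ 0 →
    P ∈ box (Sum.elim (fun _ => dl g κ h) (fun a => tl g (ω a) h)) →
    ∃ (L : List (Fin r)) (s : Fin d → ℤ), L.length ≤ (r + d) * dl g κ h ∧
      (∀ j, 0 ≤ s j ∧ s j ≤ (r + d) * (tl g (υ j) h : ℤ)) ∧
      MvPolynomial.eval (pt kap (gam X Y s)) (L.foldr (fun i f => dv kap (om X i) f) P) ≠ 0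

/-! ### Part C: the border case of the half rank theorem -/

/-- minimal integer pencils with weights have more than half rank -/
def T_CKN : Prop := ∀ t : ℂ, Transcendental ℚ t → ∀ (n : ℕ) (w : Fin (n + 1) → ℂ)
  (K0 : Fin (n + 1) → Bool), (∀ k, AO t (w k)) → (∀ k, AO t (Complex.exp (w k))) →
  (∀ k, K0 k = true → IsAlgebraic ℚ (Complex.exp (w k))) →
  (∀ q : Fin (n + 1) → ℤ, Complex.exp (∑ k, (q k : ℂ) * w k) = 1 → q = 0) →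
  ∀ (d κ K : ℕ) (A : Fin (n + 1) → Matrix (Fin d) (Fin d) ℤ) (ω υ : Fin d → ℕ), 1 ≤ d → 1 ≤ K →
  Mnl (fun k => (A k).map (Int.cast : ℤ → ℚ)) →
  (∀ k p j, A k p j ≠ 0 → ω p + υ j ≤ κ + K) →
  (∀ k p j, K0 k = false → A k p j ≠ 0 → ω p + υ j ≤ κ) →
  (κ + 1) * d + 4 ≤ 2 * ∑ a, ω a → ∑ a, ω a < ∑ j, υ j →
  d < 2 * (Matrix.of fun (p : Fin d) (j : Fin d) => ∑ k, w k * (A k p j : ℂ)).rank

/-- the same for rational pencils, indexed by a finite type -/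
def T_CKR : Prop := ∀ t : ℂ, Transcendental ℚ t → ∀ (ι : Type) [Fintype ι] (w : ι → ℂ)
  (K0 : ι → Bool), Nonempty ι → (∀ k, AO t (w k)) → (∀ k, AO t (Complex.exp (w k))) →
  (∀ k, K0 k = true → IsAlgebraic ℚ (Complex.exp (w k))) →
  (∀ q : ι → ℤ, Complex.exp (∑ k, (q k : ℂ) * w k) = 1 → q = 0) →
  ∀ (d κ K : ℕ) (A : ι → Matrix (Fin d) (Fin d) ℚ) (ω υ : Fin d → ℕ), 1 ≤ d → 1 ≤ K →
  Mnl A →
  (∀ k p j, A k p j ≠ 0 → ω p + υ j ≤ κ + K) →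
  (∀ k p j, K0 k = false → A k p j ≠ 0 → ω p + υ j ≤ κ) →
  (κ + 1) * d + 4 ≤ 2 * ∑ a, ω a → ∑ a, ω a < ∑ j, υ j →
  d < 2 * (∑ k, w k • (A k).map (algebraMap ℚ ℂ)).rank

/-! ### Part P: spinors -/

/-- fermion operators exist -/
def T_CAR : Prop := ∀ (ι : Type) [Fintype ι] [DecidableEq ι], ∃ D : ℕ, 1 ≤ D ∧
  ∃ F G : ι → Module.End ℚ (Fin D → ℚ), CAR F G

/-- products of two generators -/
def T_GEN : Prop := ∀ (p q : ℕ) (R : Type) [AddCommGroup R] [Module ℚ R] (c : Fin q → ℚ)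
  (F G : Fin p ⊕ Fin q → Module.End ℚ R), CAR F G →
  (∀ e f, gen c F G e * gen c F G f + gen c F G f * gen c F G e =
    bil c e f • (1 : Module.End ℚ R)) ∧
  (∀ (a b : Fin p → ℂ) (e : Fin q → ℂ), ∑ k, ∑ k', Sum.elim a (Sum.elim b e) k *
    Sum.elim a (Sum.elim b e) k' * ((bil c k k' : ℚ) : ℂ) =
      2 * (∑ s, a s * b s + ∑ s, (c s : ℂ) * e s ^ 2)) ∧
  ((∀ s, c s ≠ 0) → 1 ≤ p + q →
    ∃ x : Fin p ⊕ Fin p ⊕ Fin q → ℚ, ∃ b : ℚ, b ≠ 0 ∧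
      (∑ e, x e • gen c F G e) * (∑ e, x e • gen c F G e) = b • (1 : Module.End ℚ R))

/-- number operators -/
def T_NOP : Prop := ∀ (p q : ℕ) (R : Type) [AddCommGroup R] [Module ℚ R] (c : Fin q → ℚ)
  (F G : Fin p ⊕ Fin q → Module.End ℚ R), CAR F G →
  (∀ s, PP F G s * PP F G s = PP F G s) ∧ (∀ s s', PP F G s * PP F G s' = PP F G s' * PP F G s) ∧
  (∀ s, (∑ s', PP F G s') * gen c F G (Sum.inl s) =
    gen c F G (Sum.inl s) * (∑ s', PP F G s') - gen c F G (Sum.inl s)) ∧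
  (∀ s, (∑ s', PP F G s') * gen c F G (Sum.inr (Sum.inl s)) =
    gen c F G (Sum.inr (Sum.inl s)) * (∑ s', PP F G s') + gen c F G (Sum.inr (Sum.inl s))) ∧
  (∀ s, (∑ s', PP F G s') * gen c F G (Sum.inr (Sum.inr s)) =
    gen c F G (Sum.inr (Sum.inr s)) * (∑ s', PP F G s')) ∧
  (∀ s, (gen c F G (Sum.inl s) + gen c F G (Sum.inr (Sum.inl s))) *
    (gen c F G (Sum.inl s) + gen c F G (Sum.inr (Sum.inl s))) = 1 ∧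
    PP F G s * (gen c F G (Sum.inl s) + gen c F G (Sum.inr (Sum.inl s))) +
      (gen c F G (Sum.inl s) + gen c F G (Sum.inr (Sum.inl s))) * PP F G s =
      gen c F G (Sum.inl s) + gen c F G (Sum.inr (Sum.inl s))) ∧
  ((∀ s, c s ≠ 0) → 2 ≤ p + q → ∀ s : Fin p,
    ∃ x : Fin p ⊕ Fin p ⊕ Fin q → ℚ, ∃ b : ℚ, b ≠ 0 ∧
      (∑ e, x e • gen c F G e) * (∑ e, x e • gen c F G e) = b • (1 : Module.End ℚ R) ∧
      PP F G s * (∑ e, x e • gen c F G e) = (∑ e, x e • gen c F G e) * PP F G s)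

/-- minimal pairs -/
def T_MPR : Prop := ∀ (J R : Type) [Fintype J] [AddCommGroup R] [Module ℚ R]
  [FiniteDimensional ℚ R] [Nontrivial R] (x : J → Module.End ℚ R),
  (∀ e f, ∃ b : ℚ, x e * x f + x f * x e = b • (1 : Module.End ℚ R)) →
  (∃ y : J → ℚ, ∃ b : ℚ, b ≠ 0 ∧
    (∑ e, y e • x e) * (∑ e, y e • x e) = b • (1 : Module.End ℚ R)) →
  ∃ V U : Submodule ℚ R, MinP x V U

/-- from a minimal pair to pencils of matrices -/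
def T_TRM : Prop := ∀ (J R : Type) [Fintype J] [AddCommGroup R] [Module ℚ R]
  [FiniteDimensional ℚ R] (x : J → Module.End ℚ R) (V U : Submodule ℚ R), MinP x V U →
  ∀ (d : ℕ) (bV : Basis (Fin d) ℚ V) (bU : Basis (Fin d) ℚ U),
  ∃ A B : J → Matrix (Fin d) (Fin d) ℚ,
    (∀ e i, x e (bV i : R) = ∑ j, A e i j • (bU j : R)) ∧
    (∀ e i, x e (bU i : R) = ∑ j, B e i j • (bV j : R)) ∧ Mnl A ∧ Mnl B

/-- the product of the two pencils -/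
def T_SQZ : Prop := ∀ (J R : Type) [Fintype J] [AddCommGroup R] [Module ℚ R]
  [FiniteDimensional ℚ R] (x : J → Module.End ℚ R) (V U : Submodule ℚ R) (bl : J → J → ℚ),
  (∀ e f, x e * x f + x f * x e = bl e f • (1 : Module.End ℚ R)) →
  ∀ (d : ℕ) (bV : Basis (Fin d) ℚ V) (bU : Basis (Fin d) ℚ U) (A B : J → Matrix (Fin d) (Fin d) ℚ),
  (∀ e i, x e (bV i : R) = ∑ j, A e i j • (bU j : R)) →
  (∀ e i, x e (bU i : R) = ∑ j, B e i j • (bV j : R)) →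
  ∀ z : J → ℂ, ∑ e, ∑ f, z e * z f * ((bl e f : ℚ) : ℂ) = 0 →
  (∑ e, z e • (A e).map (algebraMap ℚ ℂ)) * (∑ e, z e • (B e).map (algebraMap ℚ ℂ)) = 0

/-- gradings -/
def T_GRD : Prop := ∀ (R : Type) [AddCommGroup R] [Module ℚ R] (N x : Module.End ℚ R) (k : ℤ)
  (d : ℕ) (u : Fin d → R) (v : R) (ν : ℕ) (μ : Fin d → ℕ) (a : Fin d → ℚ),
  LinearIndependent ℚ u → N v = (ν : ℚ) • v → (∀ j, N (u j) = (μ j : ℚ) • u j) →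
  N * x = x * N + (k : ℚ) • x → x v = ∑ j, a j • u j → ∀ j, a j ≠ 0 → (μ j : ℤ) = ν + k

/-- joint eigenbasis of commuting idempotents -/
def T_IDB : Prop := ∀ (p : ℕ) (R : Type) [AddCommGroup R] [Module ℚ R] [FiniteDimensional ℚ R]
  (P : Fin p → Module.End ℚ R), (∀ s, P s * P s = P s) → (∀ s s', P s * P s' = P s' * P s) →
  ∀ V : Submodule ℚ R, (∀ s, ∀ v ∈ V, P s v ∈ V) →
  ∃ (b : Basis (Fin (finrank ℚ V)) ℚ V) (ε : Fin p → Fin (finrank ℚ V) → ℕ),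
    (∀ s i, ε s i ≤ 1) ∧ ∀ s i, P s (b i : R) = (ε s i : ℚ) • (b i : R)

/-- number of eigenvalues equal to one: exchange of `V` and `U` -/
def T_TRC : Prop := ∀ (R : Type) [AddCommGroup R] [Module ℚ R] [FiniteDimensional ℚ R]
  (P x : Module.End ℚ R) (V U : Submodule ℚ R) (b : ℚ), b ≠ 0 → x * x = b • (1 : Module.End ℚ R) →
  (∀ v ∈ V, x v ∈ U) → (∀ v ∈ U, x v ∈ V) → ∀ (d : ℕ) (bV : Basis (Fin d) ℚ V)
  (bU : Basis (Fin d) ℚ U) (ε ε' : Fin d → ℕ), (∀ i, P (bV i : R) = (ε i : ℚ) • (bV i : R)) →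
  (∀ i, P (bU i : R) = (ε' i : ℚ) • (bU i : R)) → (∀ i, ε i ≤ 1) → (∀ i, ε' i ≤ 1) →
  (P * x = x * P → ∑ i, ε i = ∑ i, ε' i) ∧
  (P * x + x * P = x → ∑ i, ε i + ∑ i, ε' i = d)

/-- spinor data exist -/
def T_SPD : Prop := ∀ (p q : ℕ) (c : Fin q → ℚ), (∀ s, c s ≠ 0) → 2 ≤ p + q →
  ∃ (d : ℕ) (A B : Fin p ⊕ Fin p ⊕ Fin q → Matrix (Fin d) (Fin d) ℚ) (ν μ : Fin d → ℕ),
    1 ≤ d ∧ SD p q d c A B ν μ

/-- two matrices with product zero -/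
def T_RKZ : Prop := ∀ (d : ℕ) (M N : Matrix (Fin d) (Fin d) ℂ), M * N = 0 →
  M.rank + N.rank ≤ d

/-! ### Part F: the theorem -/

/-- normal form of bilinear relations -/
def T_NFM : Prop := ∀ (n : ℕ) (l m : Fin n → ℝ), LinearIndependent ℚ l → ∑ i, l i * m i = 0 →
  (∃ a : Matrix (Fin n) (Fin n) ℚ, a.transpose = -a ∧ ∀ i, m i = ∑ j, (a i j : ℝ) * l j) ∨
  ∃ (p q : ℕ) (α : Fin p → ℝ) (β : Fin p → ℝ) (γ : Fin q → ℝ) (c : Fin q → ℚ), 1 ≤ p + q ∧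
    (∀ s, c s ≠ 0) ∧ LinearIndependent ℚ (Sum.elim α (Sum.elim β γ)) ∧
    (∀ s, α s ∈ Submodule.span ℚ (Set.range l ∪ Set.range m)) ∧
    (∀ s, β s ∈ Submodule.span ℚ (Set.range l)) ∧ (∀ s, γ s ∈ Submodule.span ℚ (Set.range l)) ∧
    ∑ s, α s * β s + ∑ s, (c s : ℝ) * γ s ^ 2 = 0

/-- closure properties -/
def T_WCL : Prop := ∀ (t : ℂ) (S : Set ℝ),
  ((∀ x ∈ S, AO t (x : ℂ)) → ∀ x ∈ Submodule.span ℚ S, AO t (x : ℂ)) ∧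
  ((∀ x ∈ S, AO t (Real.exp x : ℂ)) → ∀ x ∈ Submodule.span ℚ S, AO t (Real.exp x : ℂ)) ∧
  ((∀ x ∈ S, IsAlgebraic ℚ (Real.exp x)) → ∀ x ∈ Submodule.span ℚ S, IsAlgebraic ℚ (Real.exp x))

/-- THE PRODUCT KERNEL THEOREM -/
def T_PKT : Prop := ∀ t : ℝ, Transcendental ℚ t → ∀ (n : ℕ) (l m : Fin n → ℝ),
  LinearIndependent ℚ l → (∀ i, AO (t : ℂ) (l i : ℂ)) → (∀ i, IsAlgebraic ℚ (Real.exp (l i))) →
  (∀ i, AO (t : ℂ) (m i : ℂ)) → (∀ i, AO (t : ℂ) (Real.exp (m i) : ℂ)) →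
  ∑ i, l i * m i = 0 →
  ∃ a : Matrix (Fin n) (Fin n) ℚ, a.transpose = -a ∧ ∀ i, m i = ∑ j, (a i j : ℝ) * l j

end Pool.Agent.H65.PK
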