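import Pool.Agent.H65.PK.Targets

/-!
Module PKT of pker_modules: the product kernel theorem.
-/

set_option autoImplicit false

open Polynomial Module Filter Topology

namespace Pool.Agent.H65.PK

open Pool.Agent.H18.TD (AO)

/-- the weights of one of the two pencils -/
theorem pk_dir (hCKR : T_CKR) (t : ℂ) (ht : Transcendental ℚ t) (p q : ℕ)
    (w : Fin p ⊕ Fin p ⊕ Fin q → ℂ) (hne : Nonempty (Fin p ⊕ Fin p ⊕ Fin q))
    (hw : ∀ k, AO t (w k)) (hew : ∀ k, AO t (Complex.exp (w k)))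
    (hK : ∀ k, IsAlgebraic ℚ (Complex.exp (w (Sum.inr k))))
    (hind : ∀ z : Fin p ⊕ Fin p ⊕ Fin q → ℤ, Complex.exp (∑ k, (z k : ℂ) * w k) = 1 → z = 0)
    (d : ℕ) (hd : 1 ≤ d) (A : Fin p ⊕ Fin p ⊕ Fin q → Matrix (Fin d) (Fin d) ℚ) (ν μ : Fin d → ℕ)
    (hmin : Mnl A) (hlow : ∀ s i j, A (Sum.inl s) i j ≠ 0 → ν i = μ j + 1)
    (hup : ∀ s i j, A (Sum.inr (Sum.inl s)) i j ≠ 0 → μ j = ν i + 1)
    (hkeep : ∀ s i j, A (Sum.inr (Sum.inr s)) i j ≠ 0 → μ j = ν i)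
    (hν : ∀ i, ν i ≤ p) (htν : 2 * ∑ i, ν i = p * d)
    (htμ : 2 * ∑ i, μ i = p * d) :
    d < 2 * (∑ k, w k • (A k).map (algebraMap ℚ ℂ)).rank := by
  have hs1 : ∑ a, (8 * p + 3 - 8 * ν a) + 8 * ∑ a, ν a = d * (8 * p + 3) := by
    rw [Finset.mul_sum, ← Finset.sum_add_distrib]
    rw [Finset.sum_congr rfl fun a _ => (by have := hν a; omega :
      8 * p + 3 - 8 * ν a + 8 * ν a = 8 * p + 3)]
    simp
  have hs2 : ∑ a, (5 + 8 * μ a) = d * 5 + 8 * ∑ a, μ a := by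
    rw [Finset.sum_add_distrib, ← Finset.mul_sum]
    simp
  refine hCKR t ht (Fin p ⊕ Fin p ⊕ Fin q) w (Sum.elim (fun _ => false) (fun _ => true)) hne hw hew
    ?_ hind d (8 * p) 16 A (fun i => 8 * p + 3 - 8 * ν i) (fun j => 5 + 8 * μ j) hd (by norm_num)
    hmin ?_ ?_ ?_ ?_
  · rintro (k | k) hk
    · simp at hk
    · exact hK k
  · rintro (s | s | s) i j hA
    · have h1 := hlow s i j hA
      have h2 := hν i
      show 8 * p + 3 - 8 * ν i + (5 + 8 * μ j) ≤ 8 * p + 16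
      omega
    · have h1 := hup s i j hA
      have h2 := hν i
      show 8 * p + 3 - 8 * ν i + (5 + 8 * μ j) ≤ 8 * p + 16
      omega
    · have h1 := hkeep s i j hA
      have h2 := hν i
      show 8 * p + 3 - 8 * ν i + (5 + 8 * μ j) ≤ 8 * p + 16
      omega
  · rintro (s | s) i j hk hA
    · have h1 := hlow s i j hA
      have h2 := hν i
      show 8 * p + 3 - 8 * ν i + (5 + 8 * μ j) ≤ 8 * p
      omega
    · simp at hk
  · show (8 * p + 1) * d + 4 ≤ 2 * ∑ a, (8 * p + 3 - 8 * ν a)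
    nlinarith
  · show ∑ a, (8 * p + 3 - 8 * ν a) < ∑ a, (5 + 8 * μ a)
    rw [hs2]
    nlinarith

theorem pf_PKT : T_NFM → T_WCL → T_SPD → T_CKR → T_RKZ → T_PKT := by
  intro hNFM hWCL hSPD hCKR hRKZ t ht n l m hl h1 h2 h3 h4 h5
  rcases hNFM n l m hl h5 with h | ⟨p, q, α, β, γ, c, hpq, hc, hind, hα, hβ, hγ, hsum⟩
  · exact h
  exfalso
  have htC : Transcendental ℚ (t : ℂ) := by
    intro h
    exact ht ((isAlgebraic_algebraMap_iff (algebraMap ℝ ℂ).injective).1 h)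
  obtain ⟨a1, a2, -⟩ := hWCL (t : ℂ) (Set.range l ∪ Set.range m)
  obtain ⟨-, -, a3⟩ := hWCL (t : ℂ) (Set.range l)
  have hA1 : ∀ x ∈ Submodule.span ℚ (Set.range l ∪ Set.range m), AO (t : ℂ) (x : ℂ) := by
    apply a1
    rintro x (⟨i, rfl⟩ | ⟨i, rfl⟩)
    · exact h1 i
    · exact h3 i
  have halg : ∀ z : ℝ, IsAlgebraic ℚ z → AO (t : ℂ) (z : ℂ) := by
    intro z hz
    have h := (isAlgebraic_algebraMap_iff (R := ℚ) (algebraMap ℝ ℂ).injective).2 hz
    exact h.extendScalars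
      (algebraMap ℚ (IntermediateField.adjoin ℚ ({(t : ℂ)} : Set ℂ))).injective
  have hA2 : ∀ x ∈ Submodule.span ℚ (Set.range l ∪ Set.range m), AO (t : ℂ) (Real.exp x : ℂ) := by
    apply a2
    rintro x (⟨i, rfl⟩ | ⟨i, rfl⟩)
    · exact halg _ (h2 i)
    · exact h4 i
  have hA3 : ∀ x ∈ Submodule.span ℚ (Set.range l), IsAlgebraic ℚ (Real.exp x) := by
    apply a3
    rintro x ⟨i, rfl⟩
    exact h2 i
  have hle : Submodule.span ℚ (Set.range l) ≤ Submodule.span ℚ (Set.range l ∪ Set.range m) :=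
    Submodule.span_mono Set.subset_union_left
  obtain ⟨W, hW⟩ : ∃ W : Fin p ⊕ Fin p ⊕ Fin q → ℝ, W = Sum.elim α (Sum.elim β γ) := ⟨_, rfl⟩
  rw [← hW] at hind
  have hWm : ∀ k, W k ∈ Submodule.span ℚ (Set.range l ∪ Set.range m) := by
    rw [hW]
    rintro (k | k | k)
    · exact hα k
    · exact hle (hβ k)
    · exact hle (hγ k)
  have hWl : ∀ k, W (Sum.inr k) ∈ Submodule.span ℚ (Set.range l) := by
    rw [hW]
    rintro (k | k)
    · exact hβ k
    · exact hγ k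
  -- at least two terms
  have hpq2 : 2 ≤ p + q := by
    by_contra hcon
    have hone : p + q = 1 := by omega
    have hne : ∀ k, W k ≠ 0 := hind.ne_zero
    rw [hW] at hne
    rcases Nat.eq_zero_or_pos p with hp | hp
    · subst hp
      obtain rfl : q = 1 := by omega
      have h6 : (c 0 : ℝ) * γ 0 ^ 2 = 0 := by simpa using hsum
      have h7 : (c 0 : ℝ) ≠ 0 := by exact_mod_cast hc 0
      have h8 := hne (Sum.inr (Sum.inr 0))
      simp only [Sum.elim_inr] at h8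
      exact mul_ne_zero h7 (pow_ne_zero 2 h8) h6
    · obtain rfl : p = 1 := by omega
      obtain rfl : q = 0 := by omega
      have h6 : α 0 * β 0 = 0 := by simpa using hsum
      have h8 := hne (Sum.inr (Sum.inl 0))
      have h9 := hne (Sum.inl 0)
      simp only [Sum.elim_inr, Sum.elim_inl] at h8 h9
      exact mul_ne_zero h9 h8 h6
  obtain ⟨d, A, B, ν, μ, hd, hS⟩ := hSPD p q c hc hpq2
  have hne : Nonempty (Fin p ⊕ Fin p ⊕ Fin q) := by
    rcases Nat.eq_zero_or_pos p with hp | hp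
    · exact ⟨Sum.inr (Sum.inr ⟨0, by omega⟩)⟩
    · exact ⟨Sum.inl ⟨0, hp⟩⟩
  have hw1 : ∀ k, AO (t : ℂ) ((W k : ℝ) : ℂ) := fun k => hA1 _ (hWm k)
  have hw2 : ∀ k, AO (t : ℂ) (Complex.exp ((W k : ℝ) : ℂ)) := fun k => by
    rw [← Complex.ofReal_exp]
    exact hA2 _ (hWm k)
  have hw3 : ∀ k, IsAlgebraic ℚ (Complex.exp ((W (Sum.inr k) : ℝ) : ℂ)) := fun k => by
    rw [← Complex.ofReal_exp]
    exact (isAlgebraic_algebraMap_iff (R := ℚ) (algebraMap ℝ ℂ).injective).2 (hA3 _ (hWl k))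
  have hw4 : ∀ z : Fin p ⊕ Fin p ⊕ Fin q → ℤ,
      Complex.exp (∑ k, (z k : ℂ) * ((W k : ℝ) : ℂ)) = 1 → z = 0 := by
    intro z hz
    have e1 : (∑ k, (z k : ℂ) * ((W k : ℝ) : ℂ)) = ((∑ k, (z k : ℝ) * W k : ℝ) : ℂ) := by
      push_cast
      rfl
    rw [e1, ← Complex.ofReal_exp] at hz
    have e2 : Real.exp (∑ k, (z k : ℝ) * W k) = 1 := by exact_mod_cast hz
    have e3 : ∑ k, (z k : ℝ) * W k = 0 := by
      rwa [Real.exp_eq_one_iff] at e2
    have e4 := Fintype.linearIndependent_iff.1 hind (fun k => (z k : ℚ)) (by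
      rw [← e3]
      refine Finset.sum_congr rfl fun k _ => ?_
      rw [Rat.smul_def]
      push_cast
      rfl)
    funext k
    have := e4 k
    exact_mod_cast this
  have hsq := hS.sq (fun s => (α s : ℂ)) (fun s => (β s : ℂ)) (fun s => (γ s : ℂ)) (by
    have : ((∑ s, α s * β s + ∑ s, (c s : ℝ) * γ s ^ 2 : ℝ) : ℂ) = 0 := by
      rw [hsum]; simp
    push_cast at this
    exact this)
  have hWe : (Sum.elim (fun s => (α s : ℂ)) (Sum.elim (fun s => (β s : ℂ))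
      (fun s => (γ s : ℂ))) : Fin p ⊕ Fin p ⊕ Fin q → ℂ) = fun k => ((W k : ℝ) : ℂ) := by
    funext k
    rw [hW]
    rcases k with k | k | k <;> rfl
  rw [hWe] at hsq
  have hr := hRKZ d _ _ hsq
  beta_reduce at hr
  have hrA := pk_dir hCKR (t : ℂ) htC p q (fun k => ((W k : ℝ) : ℂ)) hne hw1 hw2 hw3 hw4 d hd A ν μ
    hS.minA hS.lowA hS.upA hS.keepA hS.leν hS.trν hS.trμ
  have hrB := pk_dir hCKR (t : ℂ) htC p q (fun k => ((W k : ℝ) : ℂ)) hne hw1 hw2 hw3 hw4 d hd B μ ν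
    hS.minB hS.lowB hS.upB hS.keepB hS.leμ hS.trμ hS.trν
  omega

end Pool.Agent.H65.PK
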