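import Pool.Agent.H65.PK.Targets

/-!
Real numbers algebraic over `ℚ(t)`, `t` real.
-/

set_option autoImplicit false

open IntermediateField

namespace Pool.Agent.H65.PK

open Pool.Agent.H18.TD (AO)

theorem ao_of_real (t z : ℝ) (h : IsAlgebraic ℚ⟮t⟯ z) : AO (t : ℂ) (z : ℂ) := by
  have h1 : IsAlgebraic ℚ⟮t⟯ (z : ℂ) :=
    (isAlgebraic_algebraMap_iff (R := ℚ⟮t⟯) (algebraMap ℝ ℂ).injective).2 h
  obtain ⟨P, hP, hP0⟩ := h1
  -- transport the coefficients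
  have hmap : (IntermediateField.map (IsScalarTower.toAlgHom ℚ ℝ ℂ) ℚ⟮t⟯) = ℚ⟮(t : ℂ)⟯ := by
    rw [IntermediateField.adjoin_map]
    simp
  have hco : ∀ x : ℚ⟮t⟯, ((x : ℝ) : ℂ) ∈ ℚ⟮(t : ℂ)⟯ := by
    intro x
    rw [← hmap]
    exact ⟨x, x.2, rfl⟩
  let f : ℚ⟮t⟯ →+* ℚ⟮(t : ℂ)⟯ :=
    { toFun := fun x => ⟨((x : ℝ) : ℂ), hco x⟩
      map_one' := by ext; simp
      map_mul' := fun x y => by ext; simp
      map_zero' := by ext; simp
      map_add' := fun x y => by ext; simp }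
  refine ⟨P.map f, ?_, ?_⟩
  · exact (Polynomial.map_ne_zero_iff f.injective).2 hP
  · rw [Polynomial.aeval_def, Polynomial.eval₂_map]
    rw [Polynomial.aeval_def] at hP0
    exact hP0

end Pool.Agent.H65.PK
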