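import Pool.Agent.H65.PK.CKN
import Pool.Agent.H65.PK.PKT
import Pool.Agent.H65.PK.REAL
import Pool.Agent.H65.PKER.ZEN
import Pool.Agent.H27.PK.CAR
import Pool.Agent.H69.PKER.CHW
import Pool.Agent.H89.PKER.CST
import Pool.Agent.H27.PK.GEN
import Pool.Agent.H75.PKER.GFB
import Pool.Agent.H63.PKER.GFN
import Pool.Agent.H27.PK.GRD
import Pool.Agent.H1.PK.GRO
import Pool.Agent.H30.PKER.MPR
import Pool.Agent.H19.PKER.MZB
import Pool.Agent.H88.PKER.NFM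
import Pool.Agent.H78.PKER.NOP
import Pool.Agent.H75.PKER.NZK
import Pool.Agent.H5.PKER.RKZ
import Pool.Agent.H19.PKER.SMR
import Pool.Agent.H35.PKER.SPD
import Pool.Agent.H61.PKER.SQZ
import Pool.Agent.H79.PKER.TRC
import Pool.Agent.H63.PKER.TRM
import Pool.Agent.H63.PKER.WCL
import Pool.Agent.H14.PK.GRZ
import Pool.Agent.H14.PK.GEM
import Pool.Agent.H1.PKER.ARK
import Pool.Agent.H40.PKER.ZEK
import Pool.Agent.H64.PKER.AUK
import Pool.Agent.H65.PKER.CKR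
import Pool.Agent.H65.PKER.IDB
import Pool.Agent.H18.TD.All
import Pool.Agent.H72.HR.CAL

/-!
Assembly of the board pker_modules (MP_58ae59_nt): product kernel in transcendence degree one.
-/

set_option autoImplicit false

namespace Pool.Agent.H65.PK

theorem aGFN : T_GFN := Pool.Agent.H63.PKER.pf_GFN
theorem aGRO : T_GRO := Pool.Agent.H1.PK.pf_GRO Pool.Agent.H18.TD.aGRW
theorem aMZB : T_MZB := Pool.Agent.H19.PKER.pf_MZB
theorem aGFB : T_GFB := Pool.Agent.H75.PKER.pf_GFB aMZB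
theorem aGRZ : T_GRZ := Pool.Agent.H14.PK.pf_GRZ aMZB
theorem aGEM : T_GEM := Pool.Agent.H14.PK.pf_GEM aMZB aGFB aGRZ aGRO
theorem aCST : T_CST := Pool.Agent.H89.PKER.pf_CST
theorem aARK : T_ARK := Pool.Agent.H1.PKER.pf_ARK Pool.Agent.H18.TD.aREP aCST
theorem aSMR : T_SMR := Pool.Agent.H19.PKER.pf_SMR Pool.Agent.H18.TD.aTCB Pool.Agent.H18.TD.aTAY
theorem aAUK : T_AUK := Pool.Agent.H64.PKER.pf_AUK Pool.Agent.H18.TD.aPIG Pool.Agent.H18.TD.aVLP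
  Pool.Agent.H18.TD.aTCB aSMR aGRO
theorem aNZK : T_NZK := Pool.Agent.H75.PKER.pf_NZK
theorem aZEN : T_ZEN := Pool.Agent.H65.PKER.pf_ZEN Pool.Agent.H72.HRA.slcAll
theorem aCHW : T_CHW := Pool.Agent.H69.PKER.pf_CHW Pool.Agent.H72.HR.cal
theorem aZEK : T_ZEK := Pool.Agent.H40.PKER.pf_ZEK aZEN aCHW Pool.Agent.H18.TD.aCLB
  Pool.Agent.H18.TD.aZR1 Pool.Agent.H18.TD.aZR2 Pool.Agent.H18.TD.aZR3 Pool.Agent.H18.TD.aZR4 aGRO
theorem aCKN : T_CKN := pf_CKN Pool.Agent.H18.TD.aAOC Pool.Agent.H18.TD.aFAC aAUK aNZK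
  Pool.Agent.H18.TD.aVAL aARK Pool.Agent.H18.TD.aNRM aGRO aGFN aGEM aZEK
theorem aCKR : T_CKR := Pool.Agent.H65.PKER.pf_CKR aCKN
theorem aCAR : T_CAR := Pool.Agent.H27.PK.pf_CAR
theorem aGEN : T_GEN := Pool.Agent.H27.PK.pf_GEN
theorem aNOP : T_NOP := Pool.Agent.H78.PKER.pf_NOP
theorem aMPR : T_MPR := Pool.Agent.H30.PKER.pf_MPR
theorem aTRM : T_TRM := Pool.Agent.H63.PKER.pf_TRM
theorem aSQZ : T_SQZ := Pool.Agent.H61.PKER.pf_SQZ
theorem aGRD : T_GRD := Pool.Agent.H27.PK.pf_GRD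
theorem aIDB : T_IDB := Pool.Agent.H65.PKER.pf_IDB
theorem aTRC : T_TRC := Pool.Agent.H79.PKER.pf_TRC
theorem aSPD : T_SPD := Pool.Agent.H35.PKER.pf_SPD aCAR aGEN aNOP aMPR aTRM aSQZ aGRD aIDB aTRC
theorem aRKZ : T_RKZ := Pool.Agent.H5.PKER.pf_RKZ
theorem aNFM : T_NFM := Pool.Agent.H88.PKER.pf_NFM
theorem aWCL : T_WCL := Pool.Agent.H63.PKER.pf_WCL
theorem aPKT : T_PKT := pf_PKT aNFM aWCL aSPD aCKR aRKZ

end Pool.Agent.H65.PK
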