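import Pool.Agent.H65.PK.Targets

/-!
Module CKN of pker_modules: the border case of the half rank theorem.
-/

set_option autoImplicit false

open Polynomial Module Filter Topology

namespace Pool.Agent.H65.PK

open Pool.Agent.H18.TD (AO Rep Un vl aux th der tc om gam T_AOC T_FAC T_VAL T_NRM)
open Pool.Agent.H72.HR (pt dv box chn Grp Lie Std kap TT)

theorem ckn_aux (hAOC : T_AOC) (hAUX : T_AUK) (hNZ : T_NZK) (hVAL : T_VAL) (hARI : T_ARK)
    (hNRM : T_NRM) (hGRO : T_GRO) (hGFN : T_GFN) (hGEL : T_GEM) (hZER : T_ZEK) (t : ℂ)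
    (ht : Transcendental ℚ t) (n : ℕ) (w : Fin (n + 1) → ℂ) (K0 : Fin (n + 1) → Bool)
    (hew : ∀ k, AO t (Complex.exp (w k)))
    (hK0 : ∀ k, K0 k = true → IsAlgebraic ℚ (Complex.exp (w k)))
    (hind : ∀ q : Fin (n + 1) → ℤ, Complex.exp (∑ k, (q k : ℂ) * w k) = 1 → q = 0)
    (d κ K : ℕ) (A : Fin (n + 1) → Matrix (Fin d) (Fin d) ℤ) (ω υ : Fin d → ℕ)
    (hd : 1 ≤ d) (hK : 1 ≤ K) (hmin : Mnl (fun k => (A k).map (Int.cast : ℤ → ℚ)))
    (h1 : ∀ k p j, A k p j ≠ 0 → ω p + υ j ≤ κ + K)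
    (h2 : ∀ k p j, K0 k = false → A k p j ≠ 0 → ω p + υ j ≤ κ)
    (h3 : (κ + 1) * d + 4 ≤ 2 * ∑ a, ω a) (h4 : ∑ a, ω a < ∑ j, υ j)
    (r : ℕ) (X : Matrix (Fin d) (Fin r) ℂ) (Y : Matrix (Fin r) (Fin d) ℂ)
    (hXY : ∀ p j, (X * Y) p j = ∑ k, w k * (A k p j : ℂ)) (hX : ∀ p i, AO t (X p i))
    (hY : ∀ i j, AO t (Y i j)) (hYr : Y.rank = r) (hlt : 2 * r ≤ d) : False := by
  obtain ⟨g, hg⟩ := hGFN K hK
  obtain ⟨N, om, hom, C', hC', hR⟩ := hARI t r d d n X Y w A K0 ω υ κ K g hK hg hXY hK0 h1 h2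
  have halg : ∀ z : ℂ, IsAlgebraic ℚ z → AO t z := fun z hz => hz.extendScalars
    (algebraMap ℚ (IntermediateField.adjoin ℚ ({t} : Set ℂ))).injective
  have hxx : ∀ i, AO t (xk t X Y w K0 om i) := by
    obtain ⟨c1, c2, -, -, c5, -, -⟩ := hAOC t
    have c21 : AO t 1 := by
      have := c2 1
      rwa [Rat.cast_one] at this
    rintro (i | q | q | q | q | q)
    · exact c1
    · exact hX _ _
    · exact hY _ _
    · show AO t (if K0 q then 1 else Complex.exp (w q))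
      split_ifs
      · exact c21
      · exact hew q
    · show AO t (if K0 q then 1 else Complex.exp (-w q))
      split_ifs
      · exact c21
      · rw [Complex.exp_neg]
        exact c5 _ (hew q)
    · exact halg _ (hom q)
  obtain ⟨k, C, hC, hN⟩ := hNRM t _ (xk t X Y w K0 om) hxx
  have hsum : κ * r + r + 2 ≤ ∑ a, ω a := by nlinarith
  obtain ⟨e1, hA⟩ := hAUX t r d d X Y ω υ κ K g hK hg hlt hsum
  obtain ⟨e2, hZ⟩ := hZER r d n X Y w A ω υ κ K g hK hg hd hYr hXY hind hmin h4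
  obtain ⟨C2, hC2⟩ : ∃ C2 : ℝ, C2 = k * C' + C' + C * (C' + 1) := ⟨_, rfl⟩
  have hC'R : (1 : ℝ) ≤ C' := by exact_mod_cast hC'
  have hC21 : 1 ≤ C2 := by
    rw [hC2]
    have f1 : 0 ≤ (k : ℝ) * C' := by positivity
    have f2 : 0 ≤ C * ((C' : ℝ) + 1) := by positivity
    linarith
  obtain ⟨e3, he3, hgr⟩ := hGRO K g hK hg (2 * C2) 1
  refine hGEL K κ g hK hg t (C2 + 1) (max (max e1 e2) e3) (by linarith) ?_
  intro h hh
  have hh1 : e1 ≤ h := le_trans (le_max_left _ _) (le_trans (le_max_left _ _) hh)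
  have hh2 : e2 ≤ h := le_trans (le_max_right _ _) (le_trans (le_max_left _ _) hh)
  have hh3' : e3 ≤ h := le_trans (le_max_right _ _) hh
  have h3h : 3 ≤ h := le_trans he3 hh3'
  have hhR : (3 : ℝ) ≤ h := by exact_mod_cast h3h
  have hl : 1 ≤ Real.log h := by
    rw [Real.le_log_iff_exp_le (by linarith)]
    have := Real.exp_one_lt_d9
    linarith
  obtain ⟨δ, hδ⟩ : ∃ δ, δ = dl g κ h := ⟨_, rfl⟩
  have hg1 : (1 : ℝ) ≤ g h := by exact_mod_cast hg.one h
  have hδ1 : (h : ℝ) ≤ δ := by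
    rw [hδ]
    unfold dl
    push_cast
    have f1 : (1 : ℝ) ≤ (g h : ℝ) ^ κ := one_le_pow₀ hg1
    nlinarith
  have hδR : (1 : ℝ) ≤ δ := by linarith
  obtain ⟨p, hp0, hps, hp1, hp2⟩ := hA h hh1
  obtain ⟨hn1, hn2⟩ := hNZ r d _ _ _ (fun a => tl g (ω a) h) t p ht hp0 hps
  obtain ⟨L, s, hL, hs, hne⟩ := hZ h hh2 (aux t p) hn1 hn2
  rw [hVAL] at hne
  have hτ : ∀ i, (fun i => L.count i) i ≤ (r + d) * dl g κ h := fun i =>
    le_trans List.count_le_length hL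
  have hsmall := hp2 (fun i => L.count i) hτ s hs
  obtain ⟨D, hD1, hD2, hrep⟩ := hR h h3h p hps hp1 (fun i => L.count i) hτ s hs
  obtain ⟨z, hz⟩ : ∃ z, z = vl t X Y p (fun i => L.count i) s := ⟨_, rfl⟩
  rw [← hz] at hne hsmall hrep
  rw [← hδ] at hsmall hD2 hrep
  rw [← hδ]
  have hDR : (1 : ℝ) ≤ D := by exact_mod_cast hD1
  have hDC : (D : ℂ) ≠ 0 := by
    have : (D : ℝ) ≠ 0 := by positivity
    exact_mod_cast this
  have hexp0 : 0 ≤ (C' : ℝ) * (δ * Real.log h) := by positivity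
  obtain ⟨R, hR0, hRd, hRc, hRv⟩ := hN _ _ _ (Real.one_le_exp hexp0) (mul_ne_zero hDC hne) hrep
  have hδl : (δ : ℝ) ≤ δ * Real.log h := le_mul_of_one_le_right (by positivity) hl
  have hCδ : C * (((C' * δ : ℕ) : ℝ) + 1) ≤ C * (C' + 1) * δ := by
    push_cast
    rw [mul_assoc]
    refine mul_le_mul_of_nonneg_left ?_ (by linarith)
    linarith
  have hbound : Real.exp (C' * (δ * Real.log h)) ^ k *
      Real.exp (C * (((C' * δ : ℕ) : ℝ) + 1)) ≤ Real.exp ((C2 - C') * (δ * Real.log h)) := by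
    rw [← Real.exp_nat_mul, ← Real.exp_add]
    refine Real.exp_le_exp.2 ?_
    have f2 : C * ((C' : ℝ) + 1) * δ ≤ C * (C' + 1) * (δ * Real.log h) :=
      mul_le_mul_of_nonneg_left hδl (by positivity)
    calc (k : ℝ) * (C' * (δ * Real.log h)) + C * (((C' * δ : ℕ) : ℝ) + 1)
        ≤ (k : ℝ) * (C' * (δ * Real.log h)) + C * (C' + 1) * (δ * Real.log h) := by linarith
      _ = _ := by rw [hC2]; ring
  have hmono : Real.exp ((C2 - C') * (δ * Real.log h)) ≤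
      Real.exp ((C2 + 1) * (δ * Real.log h)) := by
    refine Real.exp_le_exp.2 ?_
    have : 0 ≤ (δ : ℝ) * Real.log h := by positivity
    nlinarith
  refine ⟨R, hR0, ?_, fun i => ((hRc i).trans hbound).trans hmono, ?_⟩
  · refine hRd.trans (hCδ.trans ?_)
    refine mul_le_mul_of_nonneg_right ?_ (by positivity)
    rw [hC2]
    have : 0 ≤ (k : ℝ) * C' := by positivity
    linarith
  · refine hRv.trans ?_
    have f0 : ‖(D : ℂ) * z‖ ≤
        Real.exp (C' * (δ * Real.log h)) * Real.exp (-(g h * (δ : ℝ) ^ 2 * Real.log h)) := by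
      rw [norm_mul, Complex.norm_natCast]
      exact mul_le_mul hD2 hsmall (norm_nonneg _) (Real.exp_pos _).le
    refine (mul_le_mul f0 hbound (by positivity) (by positivity)).trans ?_
    rw [← Real.exp_add, ← Real.exp_add]
    refine Real.exp_le_exp.2 ?_
    have f1 := hgr h hh3'
    rw [pow_one, pow_one] at f1
    have f2 : 2 * C2 ≤ h := by
      have f3 : (1 : ℝ) ≤ g h * (1 + Real.log h) := by nlinarith
      nlinarith
    have f4 : C2 * (δ * Real.log h) ≤ g h * (δ : ℝ) ^ 2 * Real.log h / 2 := by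
      have f5 : C2 ≤ g h * δ / 2 := by nlinarith
      have f6 : 0 ≤ (δ : ℝ) * Real.log h := by positivity
      calc C2 * (δ * Real.log h) ≤ g h * δ / 2 * (δ * Real.log h) :=
            mul_le_mul_of_nonneg_right f5 f6
        _ = _ := by ring
    have f7 : g h * (δ : ℝ) ^ 2 * Real.log h / (C2 + 1) ≤ g h * (δ : ℝ) ^ 2 * Real.log h / 2 := by
      refine div_le_div_of_nonneg_left (by positivity) (by norm_num) (by linarith)
    have f8 : C' * (δ * Real.log h) + -(g h * (δ : ℝ) ^ 2 * Real.log h) +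
        (C2 - C') * (δ * Real.log h) = C2 * (δ * Real.log h) -
        g h * (δ : ℝ) ^ 2 * Real.log h := by ring
    rw [f8]
    linarith

theorem pf_CKN : T_AOC → T_FAC → T_AUK → T_NZK → T_VAL → T_ARK → T_NRM → T_GRO → T_GFN → T_GEM →
    T_ZEK → T_CKN := by
  intro hAOC hFAC hAUX hNZ hVAL hARI hNRM hGRO hGFN hGEL hZER t ht n w K0 hw hew hK0 hind d κ K A
    ω υ hd hK hmin h1 h2 h3 h4
  by_contra hlt
  push Not at hlt
  obtain ⟨M0, hM0⟩ : ∃ M0 : Matrix (Fin d) (Fin d) ℂ,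
      M0 = Matrix.of fun (p : Fin d) (j : Fin d) => ∑ k, w k * (A k p j : ℂ) := ⟨_, rfl⟩
  rw [← hM0] at hlt
  have hMe : ∀ p j, M0 p j = ∑ k, w k * (A k p j : ℂ) := fun p j => by rw [hM0, Matrix.of_apply]
  obtain ⟨c1, c2, c3, c4, c5, c6, c7⟩ := hAOC t
  have hMA : ∀ p j, AO t (M0 p j) := by
    intro p j
    rw [hMe]
    refine Finset.sum_induction _ (AO t) c3 ?_ fun k _ => c4 _ _ (hw k) ?_
    · have := c2 0
      rwa [Rat.cast_zero] at this
    · have := c2 (A k p j : ℚ)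
      rwa [Rat.cast_intCast] at this
  obtain ⟨X, Y, hXY, hX, hY, hYr⟩ := hFAC t d d M0 hMA
  exact ckn_aux hAOC hAUX hNZ hVAL hARI hNRM hGRO hGFN hGEL hZER t ht n w K0 hew hK0 hind d κ K A
    ω υ hd hK hmin h1 h2 h3 h4 M0.rank X Y (fun p j => by rw [hXY]; exact hMe p j) hX hY hYr hlt

end Pool.Agent.H65.PK
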