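import Pool.Agent.H18.TD.Defs

/-!
Definitions for the board pk_modules (MP_58ae59_nt): product kernel in transcendence degree one.
-/

set_option autoImplicit false

open Polynomial Module

namespace Pool.Agent.H65.PK

noncomputable section

/-- a slowly growing function `g` with `g ^ K ≤ log h` -/
structure GF (K : ℕ) (g : ℕ → ℕ) : Prop where
  one : ∀ h, 1 ≤ g h
  mono : Monotone g
  slow : ∀ h, g (h + 1) ≤ 2 * g h
  large : ∀ B : ℕ, ∃ h0 : ℕ, ∀ h, h0 ≤ h → B ≤ g h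
  log : ∀ h, 3 ≤ h → (g h : ℝ) ^ K ≤ Real.log h

/-- degrees: `h ^ 2 * g ^ κ` -/
def dl (g : ℕ → ℕ) (κ h : ℕ) : ℕ := h ^ 2 * g h ^ κ

/-- degrees in the multiplicative variables, number of points: `h * g ^ ω` -/
def tl (g : ℕ → ℕ) (ω h : ℕ) : ℕ := h * g h ^ ω

/-- logarithmic Mahler measure of an integer polynomial -/
def mz (Q : ℤ[X]) : ℝ := (Q.map (Int.castRingHom ℂ)).logMahlerMeasure

/-- the numbers in the representation of the values: `t`, the entries of `X` and `Y`, the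
exponentials `exp (± w k)` for `k` outside of `K0`, and the algebraic numbers `om` -/
def xk {r l c n N : ℕ} (t : ℂ) (X : Matrix (Fin l) (Fin r) ℂ) (Y : Matrix (Fin r) (Fin c) ℂ)
    (w : Fin (n + 1) → ℂ) (K0 : Fin (n + 1) → Bool) (om : Fin N → ℂ) :
    Unit ⊕ (Fin l × Fin r) ⊕ (Fin r × Fin c) ⊕ (Fin (n + 1)) ⊕ (Fin (n + 1)) ⊕ (Fin N) → ℂ :=
  Sum.elim (fun _ => t) (Sum.elim (fun q => X q.1 q.2) (Sum.elim (fun q => Y q.1 q.2)
    (Sum.elim (fun k => if K0 k then 1 else Complex.exp (w k))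
      (Sum.elim (fun k => if K0 k then 1 else Complex.exp (-w k)) om))))

/-- a pencil: rows `y`, `y ↦ y A_k` sends `V` into `U` -/
def Snd {ι : Type} {d : ℕ} (A : ι → Matrix (Fin d) (Fin d) ℚ)
    (V U : Submodule ℚ (Fin d → ℚ)) : Prop := ∀ k, ∀ y ∈ V, Matrix.vecMul y (A k) ∈ U

/-- minimality: a square pencil such that a proper subspace is sent onto a space of larger
dimension -/
def Mnl {ι : Type} {d : ℕ} (A : ι → Matrix (Fin d) (Fin d) ℚ) : Prop :=
  ∀ V U : Submodule ℚ (Fin d → ℚ), Snd A V U → V ≠ ⊥ →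
    finrank ℚ V ≤ finrank ℚ U ∧ (V ≠ ⊤ → finrank ℚ V < finrank ℚ U)

/-- fermion operators: annihilation operators `F s`, creation operators `G s` -/
structure CAR {ι R : Type} [DecidableEq ι] [AddCommGroup R] [Module ℚ R]
    (F G : ι → Module.End ℚ R) : Prop where
  ff : ∀ s s', F s * F s' + F s' * F s = 0
  gg : ∀ s s', G s * G s' + G s' * G s = 0
  fg : ∀ s s', F s * G s' + G s' * F s = if s = s' then 1 else 0

/-- the generators: `F s`, `G s` for `s` in `Fin p`, `c s F s + G s` for `s` in `Fin q` -/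
def gen {p q : ℕ} {R : Type} [AddCommGroup R] [Module ℚ R] (c : Fin q → ℚ)
    (F G : Fin p ⊕ Fin q → Module.End ℚ R) : Fin p ⊕ Fin p ⊕ Fin q → Module.End ℚ R :=
  Sum.elim (fun s => F (Sum.inl s)) (Sum.elim (fun s => G (Sum.inl s))
    (fun s => c s • F (Sum.inr s) + G (Sum.inr s)))

/-- anticommutators of the generators -/
def bil {p q : ℕ} (c : Fin q → ℚ) : Fin p ⊕ Fin p ⊕ Fin q → Fin p ⊕ Fin p ⊕ Fin q → ℚ
  | Sum.inl s, Sum.inr (Sum.inl s') => if s = s' then 1 else 0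
  | Sum.inr (Sum.inl s), Sum.inl s' => if s = s' then 1 else 0
  | Sum.inr (Sum.inr s), Sum.inr (Sum.inr s') => if s = s' then 2 * c s else 0
  | _, _ => 0

/-- number operators -/
def PP {p q : ℕ} {R : Type} [AddCommGroup R] [Module ℚ R]
    (F G : Fin p ⊕ Fin q → Module.End ℚ R) (s : Fin p) : Module.End ℚ R :=
  G (Sum.inl s) * F (Sum.inl s)

/-- minimality of a pair of subspaces `(V, U)` for a family of operators -/
structure MinP {J R : Type} [AddCommGroup R] [Module ℚ R] (x : J → Module.End ℚ R)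
    (V U : Submodule ℚ R) : Prop where
  ne : V ≠ ⊥
  eq : finrank ℚ V = finrank ℚ U
  vu : ∀ e, ∀ v ∈ V, x e v ∈ U
  uv : ∀ e, ∀ v ∈ U, x e v ∈ V
  le : ∀ V' U' : Submodule ℚ R, (∀ e, ∀ v ∈ V', x e v ∈ U') → finrank ℚ V' ≤ finrank ℚ U'
  min : ∀ V' U' : Submodule ℚ R, (∀ e, ∀ v ∈ V', x e v ∈ U') → V' ≠ ⊥ →
    finrank ℚ V' = finrank ℚ U' → finrank ℚ V ≤ finrank ℚ V'

/-- spinor data: a pair of pencils `A`, `B` of size `d` indexed by the generators, with product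
relations and gradings `ν`, `μ` -/
structure SD (p q d : ℕ) (c : Fin q → ℚ) (A B : Fin p ⊕ Fin p ⊕ Fin q → Matrix (Fin d) (Fin d) ℚ)
    (ν μ : Fin d → ℕ) : Prop where
  /-- square zero: for all values of the parameters the product is the value of the form -/
  sq : ∀ (a b : Fin p → ℂ) (e : Fin q → ℂ), ∑ s, a s * b s + ∑ s, (c s : ℂ) * e s ^ 2 = 0 →
    (∑ k, (Sum.elim a (Sum.elim b e) k) • (A k).map (algebraMap ℚ ℂ)) *
      (∑ k, (Sum.elim a (Sum.elim b e) k) • (B k).map (algebraMap ℚ ℂ)) = 0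
  minA : Mnl A
  minB : Mnl B
  /-- `F` lowers the degree -/
  lowA : ∀ s i j, A (Sum.inl s) i j ≠ 0 → ν i = μ j + 1
  lowB : ∀ s i j, B (Sum.inl s) i j ≠ 0 → μ i = ν j + 1
  /-- `G` raises the degree -/
  upA : ∀ s i j, A (Sum.inr (Sum.inl s)) i j ≠ 0 → μ j = ν i + 1
  upB : ∀ s i j, B (Sum.inr (Sum.inl s)) i j ≠ 0 → ν j = μ i + 1
  keepA : ∀ s i j, A (Sum.inr (Sum.inr s)) i j ≠ 0 → μ j = ν i
  keepB : ∀ s i j, B (Sum.inr (Sum.inr s)) i j ≠ 0 → ν j = μ i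
  leν : ∀ i, ν i ≤ p
  leμ : ∀ i, μ i ≤ p
  trν : 2 * ∑ i, ν i = p * d
  trμ : 2 * ∑ i, μ i = p * d

end

end Pool.Agent.H65.PK
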