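import Pool.Agent.H3.PK.Targets

/-!
# SIG, NUL: the normalised surface measure
-/

set_option autoImplicit false

open MeasureTheory Metric Set
open scoped ComplexConjugate Pointwise

namespace Pool.Agent.H65.PK

open Pool.Agent.H3.PK

private lemma vol_pre {n : ℕ} (U : E n ≃ₗᵢ[ℂ] E n) (s : Set (E n)) :
    (volume : Measure (E n)) (U ⁻¹' s) = (volume : Measure (E n)) s := by
  set f : E n ≃L[ℝ] E n := U.toContinuousLinearEquiv.restrictScalars ℝ with hf
  have hfU : ∀ z, f z = U z := fun z => rfl
  have h1 := Measure.addHaar_preimage_continuousLinearEquiv (volume : Measure (E n)) f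
  have hb : f ⁻¹' (ball (0 : E n) 1) = ball (0 : E n) 1 := by
    ext z
    rw [mem_preimage, hfU, mem_ball_zero_iff, mem_ball_zero_iff, U.norm_map]
  have h2 := h1 (ball (0 : E n) 1)
  rw [hb] at h2
  have hpos : (volume : Measure (E n)) (ball (0 : E n) 1) ≠ 0 :=
    (measure_ball_pos _ _ one_pos).ne'
  have hfin : (volume : Measure (E n)) (ball (0 : E n) 1) ≠ ⊤ := measure_ball_lt_top.ne
  have h3 : ENNReal.ofReal |LinearMap.det (f.symm : E n →ₗ[ℝ] E n)| = 1 := by
    have h4 : ENNReal.ofReal |LinearMap.det (f.symm : E n →ₗ[ℝ] E n)| *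
        (volume : Measure (E n)) (ball (0 : E n) 1) =
        1 * (volume : Measure (E n)) (ball (0 : E n) 1) := by
      rw [one_mul]; exact h2.symm
    exact (ENNReal.mul_left_inj hpos hfin).mp h4
  have h5 := h1 s
  rw [h3, one_mul] at h5
  exact h5

private lemma sph_pre {n : ℕ} (U : E n ≃ₗᵢ[ℂ] E n) {s : Set (S n)} (hs : MeasurableSet s) :
    (volume : Measure (E n)).toSphere (act U ⁻¹' s) = (volume : Measure (E n)).toSphere s := by
  have hm : MeasurableSet (act U ⁻¹' s) := (continuous_act U).measurable hs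
  rw [Measure.toSphere_apply' _ hm, Measure.toSphere_apply' _ hs]
  congr 1
  rw [← vol_pre U (Ioo (0 : ℝ) 1 • (Subtype.val '' s : Set (E n)))]
  congr 1
  ext z
  simp only [mem_smul, mem_image, mem_preimage]
  constructor
  · rintro ⟨r, hr, w, ⟨y, hy, rfl⟩, rfl⟩
    refine ⟨r, hr, U y, ⟨act U y, hy, rfl⟩, ?_⟩
    show r • U (y : E n) = U (r • (y : E n))
    rw [map_real_smul U U.continuous]
  · rintro ⟨r, hr, w, ⟨y, hy, rfl⟩, hz⟩
    refine ⟨r, hr, U.symm y, ⟨act U.symm y, ?_, rfl⟩, ?_⟩
    · have : act U (act U.symm y) = y := by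
        apply Subtype.ext
        show U (U.symm y) = y
        exact U.apply_symm_apply _
      rw [this]; exact hy
    · have h1 : U (r • U.symm (y : E n)) = U z := by
        rw [map_real_smul U U.continuous, U.apply_symm_apply]; exact hz
      exact U.injective h1

theorem sig_inv : T_SIG := by
  intro n hn
  have huniv : (volume : Measure (E n)).toSphere univ =
      (Module.finrank ℝ (E n) : ENNReal) * (volume : Measure (E n)) (ball 0 1) :=
    Measure.toSphere_apply_univ _
  have : Nonempty (Fin n) := ⟨⟨0, hn⟩⟩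
  have hne : (volume : Measure (E n)).toSphere univ ≠ 0 := by
    rw [huniv]
    refine mul_ne_zero ?_ (measure_ball_pos _ _ one_pos).ne'
    have : 0 < Module.finrank ℝ (E n) := Module.finrank_pos
    exact_mod_cast this.ne'
  have hfin : (volume : Measure (E n)).toSphere univ ≠ ⊤ := by
    rw [huniv]
    exact ENNReal.mul_ne_top (by simp) measure_ball_lt_top.ne
  refine ⟨⟨?_⟩, ?_⟩
  · unfold sig
    rw [Measure.smul_apply, smul_eq_mul, ENNReal.inv_mul_cancel hne hfin]
  · intro U
    refine Measure.ext fun s hs => ?_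
    rw [Measure.map_apply (continuous_act U).measurable hs]
    unfold sig
    rw [Measure.smul_apply, Measure.smul_apply, sph_pre U hs]

/-- the real subspace of the vectors with real `i₀`-th coordinate -/
private noncomputable def VV {n : ℕ} (i₀ : Fin n) : Submodule ℝ (E n) where
  carrier := {z | (z i₀).im = 0}
  add_mem' {a b} ha hb := by
    show ((a + b) i₀).im = 0
    have h1 : (a i₀).im = 0 := ha
    have h2 : (b i₀).im = 0 := hb
    rw [PiLp.add_apply, Complex.add_im, h1, h2, add_zero]
  zero_mem' := by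
    show ((0 : E n) i₀).im = 0
    simp
  smul_mem' c x hx := by
    show ((c • x) i₀).im = 0
    have h1 : (x i₀).im = 0 := hx
    rw [PiLp.smul_apply, Complex.smul_im, h1, smul_zero]

theorem nul : T_NUL := by
  intro n i₀
  have hcont : Continuous fun z : S n => ((z : E n) i₀).im :=
    Complex.continuous_im.comp
      ((by fun_prop : Continuous fun z : E n => z i₀).comp continuous_subtype_val)
  have hm : MeasurableSet {z : S n | ((z : E n) i₀).im = 0} :=
    (isClosed_eq hcont continuous_const).measurableSet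
  have hV : VV i₀ ≠ (⊤ : Submodule ℝ (E n)) := by
    intro h
    have h1 : EuclideanSpace.single i₀ Complex.I ∈ VV i₀ := by rw [h]; trivial
    have h2 : ((EuclideanSpace.single i₀ Complex.I : E n) i₀).im = 0 := h1
    simp at h2
  have h0 : (volume : Measure (E n)) (VV i₀ : Set (E n)) = 0 :=
    Measure.addHaar_submodule _ _ hV
  unfold sig
  rw [Measure.smul_apply, Measure.toSphere_apply' _ hm]
  have hsub : Ioo (0 : ℝ) 1 • ((↑) '' {z : S n | ((z : E n) i₀).im = 0}) ⊆
      (VV i₀ : Set (E n)) := by
    rintro w ⟨r, _, x, ⟨y, hy, rfl⟩, rfl⟩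
    exact (VV i₀).smul_mem r hy
  rw [measure_mono_null hsub h0, mul_zero, smul_zero]

end Pool.Agent.H65.PK
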